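import Pool.Agent.K1H95.EO.Stm

set_option autoImplicit false

open Cardinal

namespace Pool.Agent.K1H11.EO

open Pool.Agent.K1H95.EO

theorem nrm_eq {I : Type} (a : I →₀ ℤ) (S : Finset I) (h : a.support ⊆ S) :
    nrm a = ∑ i ∈ S, (a i).natAbs := by
  unfold nrm
  exact Finsupp.sum_of_support_subset _ h _ (fun _ _ => rfl)

theorem nrm_sub {I : Type} (x y : I →₀ ℤ) : nrm (x - y) ≤ nrm x + nrm y := by
  classical
  rw [nrm_eq (x - y) (x.support ∪ y.support) Finsupp.support_sub,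
    nrm_eq x (x.support ∪ y.support) Finset.subset_union_left,
    nrm_eq y (x.support ∪ y.support) Finset.subset_union_right, ← Finset.sum_add_distrib]
  refine Finset.sum_le_sum fun i _ => ?_
  rw [Finsupp.sub_apply]
  omega

theorem typ_sub {E I : Type} (c : I → ℕ → E) (n : ℕ) (x y : I →₀ ℤ) :
    typ c n (x - y) = typ c n x - typ c n y :=
  map_sub (Finsupp.mapDomain.addMonoidHom (M := ℤ) fun i => pre n (c i)) x y

theorem card_typ (κ : Cardinal.{0}) (E : Type) (hκ : ℵ₀ ≤ κ) (hE : #E ≤ κ) :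
    #(List E →₀ ℤ) ≤ κ := by
  rcases isEmpty_or_nonempty E with h | h
  · exact (Cardinal.mk_le_aleph0).trans hκ
  · rw [Cardinal.mk_finsupp_of_infinite, Cardinal.mk_int]
    exact max_le (Cardinal.mk_list_le_max E |>.trans (max_le hκ hE)) hκ

/-- The combinatorial lemma. -/
theorem t_COMB (hPIG : S_PIG) (hGOOD : S_GOOD) (hROOT : S_ROOT) (hKER : S_KER) (hLEV : S_LEV) :
    S_COMB := by
  classical
  intro κ E I _ c hκ hE hc hI A hA
  obtain ⟨r, F', hFF, hF', hξ⟩ := hROOT κ I hκ hI (A : Set (I →₀ ℤ)) hA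
  obtain ⟨n1, hn1⟩ := hPIG κ (I →₀ ℤ) ℕ (fun v => nrm (v - r)) F' hκ (by simpa using hκ) hF'
  obtain ⟨N, hN⟩ : ∃ N, N = 2 * n1 := ⟨_, rfl⟩
  obtain ⟨L, hL⟩ : ∃ L, 2 * N ^ 2 < 2 ^ L := ⟨2 * N ^ 2, Nat.lt_two_pow_self⟩
  have hβ := card_typ κ E hκ hE
  obtain ⟨t2, ht2⟩ := hPIG κ (I →₀ ℤ) (List E →₀ ℤ) (fun v => typ c L (v - r)) _ hκ hβ hn1
  obtain ⟨v, hv, v', hv', hne, hg, hg'⟩ := hGOOD κ (I →₀ ℤ) (List E →₀ ℤ)
    (fun M v => typ c M (v - r)) _ hκ hβ ht2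
  have hmemA : ∀ w : I →₀ ℤ, w ∈ F' → w ∈ A := fun w hw => hFF hw
  have haA : v - v' ∈ A := A.sub_mem (hmemA v hv.1.1) (hmemA v' hv'.1.1)
  have hsub : ∀ w w' : I →₀ ℤ, w - w' = (w - r) - (w' - r) := fun w w' => by abel
  have ha0 : v - v' ≠ 0 := sub_ne_zero.2 hne
  have hLa : typ c L (v - v') = 0 := by
    rw [hsub, typ_sub, hv.2, hv'.2, sub_self]
  obtain ⟨j, hj⟩ := (hLEV E I c hc (v - v')).2 ha0
  obtain ⟨M, hjM, hM⟩ : ∃ M, j ≤ M ∧ N ^ 2 * 2 ^ j < 2 ^ M :=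
    ⟨max j (N ^ 2 * 2 ^ j), le_max_left _ _,
      lt_of_lt_of_le Nat.lt_two_pow_self (Nat.pow_le_pow_right (by norm_num) (le_max_right _ _))⟩
  have hT : ((v - r).support ∪ (v' - r).support).Nonempty := by
    rw [Finset.nonempty_iff_ne_empty]
    intro h
    rw [Finset.union_eq_empty, Finsupp.support_eq_empty, Finsupp.support_eq_empty] at h
    exact ha0 (by rw [hsub, h.1, h.2, sub_self])
  obtain ⟨ξ, hξT⟩ : ∃ ξ, ∀ y ∈ (v - r).support ∪ (v' - r).support, y ≤ ξ :=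
    ⟨((v - r).support ∪ (v' - r).support).max' hT, fun y hy => Finset.le_max' _ y hy⟩
  have pick : ∀ (t : List E →₀ ℤ),
      κ < #{w : I →₀ ℤ | w ∈ {w : I →₀ ℤ | w ∈ {w : I →₀ ℤ | w ∈ F' ∧ nrm (w - r) = n1} ∧
        typ c L (w - r) = t2} ∧ typ c M (w - r) = t} →
      ∃ w : I →₀ ℤ, w ∈ F' ∧ nrm (w - r) = n1 ∧ typ c M (w - r) = t ∧
        ∀ y ∈ (w - r).support, ξ < y := by
    intro t ht
    by_contra hcon
    push Not at hcon
    refine absurd ((Cardinal.mk_le_mk_of_subset ?_).trans (hξ ξ)) (not_le.2 ht)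
    intro w hw
    obtain ⟨y, hy, hyξ⟩ := hcon w hw.1.1.1 hw.1.1.2 hw.2
    exact ⟨hw.1.1.1, y, hy, hyξ⟩
  obtain ⟨w, hw1, hw2, hw3, hw4⟩ := pick _ (hg M)
  obtain ⟨w', hw1', hw2', hw3', hw4'⟩ := pick _ (hg' M)
  have hbA : w - w' ∈ A := A.sub_mem (hmemA w hw1) (hmemA w' hw1')
  have hsa : ∀ x ∈ (v - v').support, x ≤ ξ := by
    intro x hx
    rw [hsub] at hx
    exact hξT x (Finsupp.support_sub hx)
  have hsb : ∀ y ∈ (w - w').support, ξ < y := by
    intro y hy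
    rw [hsub] at hy
    rcases Finset.mem_union.1 (Finsupp.support_sub hy) with h | h
    · exact hw4 y h
    · exact hw4' y h
  have hlt : ∀ x ∈ (v - v').support, ∀ y ∈ (w - w').support, x < y := fun x hx y hy =>
    (hsa x hx).trans_lt (hsb y hy)
  refine ⟨v - v', haA, w - w', hbA, hlt, ?_⟩
  refine hKER E I c (v - v') (w - w') N L j M hc (fun x hx y hy => (hlt x hx y hy).ne) ?_ hLa hj
    hjM ?_ ?_ hL hM
  · have e1 : typ c M (v - v') = typ c M (v - r) - typ c M (v' - r) := by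
      rw [hsub v v']; exact typ_sub c M (v - r) (v' - r)
    have e2 : typ c M (w - w') = typ c M (w - r) - typ c M (w' - r) := by
      rw [hsub w w']; exact typ_sub c M (w - r) (w' - r)
    rw [e1, e2, hw3, hw3']
  · rw [hsub]
    refine (nrm_sub _ _).trans ?_
    have h1 : nrm (v - r) = n1 := hv.1.2
    have h2 : nrm (v' - r) = n1 := hv'.1.2
    omega
  · rw [hsub]
    refine (nrm_sub _ _).trans ?_
    omega

end Pool.Agent.K1H11.EO
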